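import Pool.Agent.Helper51.PC.Prop

/-!
# Chordal graphs are equitably, even proportionally, `k`-choosable for all `k > Δ`

Proof: a homological Hall theorem over `ZMod 2` for the complex of capacitated independent colour
classes, and an induction over simplicial vertices; see Pool/Agent/Helper51/PC.
Author: helper51.
-/

namespace Pool.Agent.Results.MP_c0e710_co.ChordalGraphs

open Finset Classical

/-- `G` is chordal: every nonempty finite set of vertices contains a vertex whose neighbours inside
the set are pairwise adjacent (equivalently, `G` has a perfect elimination ordering, or every cycle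
of length at least four has a chord). -/
def IsChordal {V : Type} (G : SimpleGraph V) : Prop :=
  ∀ S : Finset V, S.Nonempty →
    ∃ v ∈ S, ∀ a ∈ S, ∀ b ∈ S, G.Adj v a → G.Adj v b → a ≠ b → G.Adj a b

/-- Let `G` be a finite chordal graph and `k ≥ Δ(G) + 1`. For all lists of `k` colours there is a
proper colouring from the lists in which every colour `c`, contained in `η` of the lists, is used at
least `⌊η / k⌋` and at most `⌈η / k⌉` times; in particular at most `⌈|V| / k⌉` times. -/
theorem result (V : Type) [Fintype V] (G : SimpleGraph V) (hG : IsChordal G) (k : ℕ)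
    (hk : ∀ v, G.degree v + 1 ≤ k) (C : Type) (L : V → Finset C) (hL : ∀ v, (L v).card = k) :
    ∃ f : V → C, (∀ v, f v ∈ L v) ∧ (∀ u v, G.Adj u v → f u ≠ f v) ∧
      ∀ c, ⌊((univ.filter fun v => c ∈ L v).card : ℚ) / k⌋₊ ≤ (univ.filter fun v => f v = c).card ∧
        (univ.filter fun v => f v = c).card ≤ ⌈((univ.filter fun v => c ∈ L v).card : ℚ) / k⌉₊ ∧
        (univ.filter fun v => f v = c).card ≤ ⌈(Fintype.card V : ℚ) / k⌉₊ := by
  rcases isEmpty_or_nonempty V with hV | ⟨⟨v0⟩⟩
  · exact ⟨fun v => hV.elim v, fun v => hV.elim v, fun v => hV.elim v, fun c => by simp⟩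
  have hk0 : 1 ≤ k := le_trans (by omega) (hk v0)
  have hkQ : (0 : ℚ) < k := by exact_mod_cast hk0
  -- the palette
  set Γ : Finset C := univ.biUnion L with hΓ
  have hsub : ∀ v, ∀ c ∈ L v, c ∈ Γ := fun v c hc => mem_biUnion.mpr ⟨v, mem_univ v, hc⟩
  set L' : V → Finset {c // c ∈ Γ} := fun v => (L v).subtype (fun c => c ∈ Γ) with hL'
  have hmem : ∀ v (c : {c // c ∈ Γ}), c ∈ L' v ↔ c.1 ∈ L v := fun v c => mem_subtype
  have hcard : ∀ v, (L' v).card = k := by
    intro v
    rw [hL', card_subtype, filter_true_of_mem (hsub v), hL v]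
  obtain ⟨f, h1, h2, h3⟩ := Pool.Agent.Helper51.PC.proportional_aux G hG k hk0 (fun v => by
    have h4 := hk v
    rw [← SimpleGraph.card_neighborFinset_eq_degree] at h4
    have h5 : (@Finset.filter V (fun u => G.Adj v u) (Classical.decPred _) univ)
        = G.neighborFinset v := by
      ext u
      simp
    rw [h5]
    exact h4) L' hcard
  have hfl : ∀ m : ℕ, ⌊(m : ℚ) / k⌋₊ = ⌊(m : ℝ) / k⌋₊ := fun m => by
    rw [Nat.floor_div_natCast, Nat.floor_div_natCast, Nat.floor_natCast, Nat.floor_natCast]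
  have hce : ∀ m : ℕ, ⌈(m : ℚ) / k⌉₊ = ⌈(m : ℝ) / k⌉₊ := fun m => by
    apply le_antisymm
    · apply Nat.ceil_le.mpr
      have h4 := Nat.le_ceil ((m : ℝ) / k)
      have h5 : (((m : ℚ) / k : ℚ) : ℝ) ≤ ((⌈(m : ℝ) / k⌉₊ : ℚ) : ℝ) := by
        push_cast
        exact h4
      exact_mod_cast h5
    · apply Nat.ceil_le.mpr
      have h4 := Nat.le_ceil ((m : ℚ) / k)
      have h5 : (((m : ℚ) / k : ℚ) : ℝ) ≤ ((⌈(m : ℚ) / k⌉₊ : ℚ) : ℝ) := by exact_mod_cast h4
      push_cast at h5
      exact h5
  refine ⟨fun v => (f v).1, fun v => (hmem v (f v)).mp (h1 v), ?_, ?_⟩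
  · intro u v huv h
    exact h2 u v huv (Subtype.ext h)
  · intro c
    have hmono : ⌈((univ.filter fun v => c ∈ L v).card : ℚ) / k⌉₊ ≤ ⌈(Fintype.card V : ℚ) / k⌉₊ := by
      apply Nat.ceil_mono
      apply div_le_div_of_nonneg_right _ hkQ.le
      exact_mod_cast card_le_univ _
    by_cases hc : c ∈ Γ
    · have h4 := h3 ⟨c, hc⟩
      have h5 : (univ.filter fun v => (⟨c, hc⟩ : {c // c ∈ Γ}) ∈ L' v)
          = univ.filter fun v => c ∈ L v := by
        ext v
        simp [hmem v ⟨c, hc⟩]
      have h6 : (univ.filter fun v => f v = ⟨c, hc⟩) = univ.filter fun v => (f v).1 = c := by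
        ext v
        simp [Subtype.ext_iff]
      rw [h5, h6, ← hfl, ← hce] at h4
      exact ⟨h4.1, h4.2, h4.2.trans hmono⟩
    · have h4 : (univ.filter fun v => c ∈ L v) = ∅ := by
        rw [filter_eq_empty_iff]
        intro v _ h
        exact hc (hsub v c h)
      have h5 : (univ.filter fun v => (f v).1 = c) = ∅ := by
        rw [filter_eq_empty_iff]
        intro v _ h
        exact hc (h ▸ (f v).2)
      rw [h4, h5]
      simp

end Pool.Agent.Results.MP_c0e710_co.ChordalGraphs
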