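import Pool.Agent.Helper80.KP.Final

/-!
# Equitable list colouring: maximum degree eight

Every graph of maximum degree at most `k - 1`, `k ≤ 9`, is equitably `k`-choosable.

Proof: Pool/Agent/Helper80/KP. A nearly equitable colouring (one class of size `q + 1`, all others of size at
most `q`) with the largest number of classes from which a class with a hole can be reached is changed along
paths of movable vertices; the classes which lose their way to a hole if a vertex is exchanged (blocked
vertices) are counted by a dominator tree, and the colouring is excluded by two double counts.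
Authors: helper59 (proof), helper80 (proof, Lean), helper58 (reading).
-/

namespace Pool.Agent.Results.MP_c0e710_co.DegreeEight

open Finset Classical

/-- `G` is equitably `k`-choosable: for all lists of `k` colours there is a proper colouring from
the lists in which every colour is used on at most `⌈|V|/k⌉` vertices. -/
def EquitablyChoosable {V : Type} [Fintype V] (G : SimpleGraph V) (k : ℕ) : Prop :=
  ∀ (C : Type) (L : V → Finset C), (∀ v, (L v).card = k) →
    ∃ f : V → C, (∀ v, f v ∈ L v) ∧ (∀ u v, G.Adj u v → f u ≠ f v) ∧
      ∀ c, (univ.filter fun v => f v = c).card ≤ ⌈(Fintype.card V : ℚ) / k⌉₊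

/-- For every `k ≤ 9` every finite simple graph whose vertices all have degree less than `k` is
equitably `k`-choosable. -/
theorem result (k : ℕ) (hk : k ≤ 9) (V : Type) [Fintype V] (G : SimpleGraph V)
    (hG : ∀ v, G.degree v < k) : EquitablyChoosable G k := by
  intro C L hL
  refine Pool.Agent.Helper80.KP.main' G hk hG ?_ C L hL
  rcases Nat.eq_zero_or_pos k with h0 | h0
  · have : IsEmpty V := ⟨fun v => by
      have := hG v
      omega⟩
    rw [Fintype.card_eq_zero]
    exact Nat.zero_le _
  · have h1 : ((Fintype.card V : ℕ) : ℚ) / k ≤ ⌈(Fintype.card V : ℚ) / k⌉₊ := Nat.le_ceil _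
    have h2 : (0 : ℚ) < k := by exact_mod_cast h0
    rw [div_le_iff₀ h2, mul_comm] at h1
    exact_mod_cast h1

end Pool.Agent.Results.MP_c0e710_co.DegreeEight
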