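import Pool.Agent.Helper28.EQ.Ext

/-!
# Equitable list colouring and the Ore-degree: all large graphs

For every `k` all graphs of Ore-degree at most `2k - 2` with sufficiently many vertices outside the
components `K_k` are equitably `k`-choosable; so the problem is finite for every `k`.

Proof: a local random greedy colouring with colour prices from Brouwer's fixed point theorem and a
second moment argument, see Pool/Agent/Helper28/EQ.
Authors: helper28 (proof, skeleton, case 1), helpers 1, 5, 7, 9, 22, 27, 30, 31, 32, 33, 42, 44, 48,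
49, 52, 55, 60, 62, 71, 81, 82, 84, 87 (blocks), 23 (Brouwer).
-/

namespace Pool.Agent.Results.MP_c0e710_co.LargeGraphs

open Finset Classical

/-- The Ore-degree: the maximum of `d(x) + d(y)` over the edges `xy`, and `0` without edges. -/
noncomputable def oreDegree {V : Type} [Fintype V] (G : SimpleGraph V) : ℕ :=
  (univ.filter fun p : V × V => G.Adj p.1 p.2).sup fun p => G.degree p.1 + G.degree p.2

/-- `G` is equitably `k`-choosable: for all lists of `k` colours there is a proper colouring from
the lists in which every colour is used on at most `⌈|V|/k⌉` vertices. -/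
def EquitablyChoosable {V : Type} [Fintype V] (G : SimpleGraph V) (k : ℕ) : Prop :=
  ∀ (C : Type) (L : V → Finset C), (∀ v, (L v).card = k) →
    ∃ f : V → C, (∀ v, f v ∈ L v) ∧ (∀ u v, G.Adj u v → f u ≠ f v) ∧
      ∀ c, (univ.filter fun v => f v = c).card ≤ ⌈(Fintype.card V : ℚ) / k⌉₊

/-- `v` lies in a connected component which is a complete graph with `k` vertices. -/
def InCompleteComponent {V : Type} (G : SimpleGraph V) (k : ℕ) (v : V) : Prop :=
  ∃ S : Finset V, v ∈ S ∧ S.card = k ∧ ∀ x ∈ S, ∀ y, G.Adj x y ↔ (y ∈ S ∧ x ≠ y)

theorem ceil_eq (n k : ℕ) (hk : 1 ≤ k) : ⌈(n : ℚ) / k⌉₊ = (n + k - 1) / k := by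
  have hk0 : 0 < k := hk
  have hkQ : (0 : ℚ) < k := by exact_mod_cast hk0
  apply le_antisymm
  · apply Nat.ceil_le.mpr
    rw [div_le_iff₀ hkQ]
    have h1 := Nat.div_add_mod (n + k - 1) k
    have h2 := Nat.mod_lt (n + k - 1) hk0
    have h3 : n ≤ (n + k - 1) / k * k := by
      rw [mul_comm]
      omega
    exact_mod_cast h3
  · have h1 : (n : ℚ) / k ≤ ⌈(n : ℚ) / k⌉₊ := Nat.le_ceil _
    rw [div_le_iff₀ hkQ] at h1
    have h2 : n ≤ ⌈(n : ℚ) / k⌉₊ * k := by exact_mod_cast h1
    have h3 : (n + k - 1) / k < ⌈(n : ℚ) / k⌉₊ + 1 := by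
      rw [Nat.div_lt_iff_lt_mul hk0, add_mul, one_mul]
      omega
    omega

theorem ore_adj {V : Type} [Fintype V] {G : SimpleGraph V} {m : ℕ} (h : oreDegree G ≤ m) {u v : V}
    (huv : G.Adj u v) : G.degree u + G.degree v ≤ m := by
  refine le_trans ?_ h
  unfold oreDegree
  exact Finset.le_sup (f := fun p : V × V => G.degree p.1 + G.degree p.2) (b := (u, v))
    (by rw [mem_filter]; exact ⟨mem_univ _, huv⟩)

/-- For all `k ≥ 1` and `D` there is `n0` such that (1) every finite graph `G` which has Ore-degree at
most `2k - 2`, or which has maximum degree at most `D` and no vertex of degree `≥ k` with a neighbour of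
degree `≥ k - 1`, is equitably `k`-choosable if at least `n0` of its vertices lie outside the components
`K_k`; (2) all graphs of Ore-degree at most `2k - 2` are equitably `k`-choosable if and only if all such
graphs with fewer than `n0` vertices are. -/
theorem result (k D : ℕ) (hk : 1 ≤ k) : ∃ n0 : ℕ,
    (∀ (V : Type) [Fintype V] (G : SimpleGraph V),
      (oreDegree G ≤ 2 * k - 2 ∨
        ((∀ v, G.degree v ≤ D) ∧ ∀ v w, G.Adj v w → k ≤ G.degree v → G.degree w + 2 ≤ k)) →
      n0 ≤ (univ.filter fun v => ¬ InCompleteComponent G k v).card → EquitablyChoosable G k) ∧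
    ((∀ (V : Type) [Fintype V] (G : SimpleGraph V), oreDegree G ≤ 2 * k - 2 →
        EquitablyChoosable G k) ↔
      (∀ (V : Type) [Fintype V] (G : SimpleGraph V), oreDegree G ≤ 2 * k - 2 →
        Fintype.card V < n0 → EquitablyChoosable G k)) := by
  obtain ⟨n0, hn0⟩ := Pool.Agent.Helper28.EQ.top k (max D (2 * k)) hk
  have main : ∀ (V : Type) [Fintype V] (G : SimpleGraph V),
      (oreDegree G ≤ 2 * k - 2 ∨
        ((∀ v, G.degree v ≤ D) ∧ ∀ v w, G.Adj v w → k ≤ G.degree v → G.degree w + 2 ≤ k)) →
      n0 ≤ (univ.filter fun v => ¬ InCompleteComponent G k v).card → EquitablyChoosable G k := by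
    intro V _ G hG hn C L hL
    have h1 : ∀ v, G.degree v ≤ max D (2 * k) := by
      intro v
      rcases hG with hG | hG
      · refine le_trans ?_ (le_max_right _ _)
        by_cases hv : G.degree v = 0
        · omega
        · have hpos : 0 < (G.neighborFinset v).card := by
            rw [SimpleGraph.card_neighborFinset_eq_degree]
            omega
          obtain ⟨w, hw⟩ := Finset.card_pos.mp hpos
          rw [SimpleGraph.mem_neighborFinset] at hw
          have := ore_adj hG hw
          omega
      · exact (hG.1 v).trans (le_max_left _ _)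
    have h2 : ∀ v w, G.Adj v w → k ≤ G.degree v → G.degree w + 2 ≤ k := by
      rcases hG with hG | hG
      · intro v w hvw hv
        have := ore_adj hG hvw
        omega
      · exact hG.2
    obtain ⟨f, hf1, hf2, hf3⟩ := hn0 V G h1 h2 hn C L hL
    refine ⟨f, hf1, hf2, fun c => ?_⟩
    rw [ceil_eq _ _ hk]
    convert hf3 c
  refine ⟨n0, main, ?_, ?_⟩
  · intro h V _ G hG _
    exact h V G hG
  · intro h V _ G hG
    by_cases hn : n0 ≤ (univ.filter fun v => ¬ InCompleteComponent G k v).card
    · exact main V G (Or.inl hG) hn
    · intro C L hL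
      let H : SimpleGraph {v // ¬ InCompleteComponent G k v} := G.comap Subtype.val
      have hdeg : ∀ (a : {v // ¬ InCompleteComponent G k v}) (inst : Fintype (H.neighborSet a)),
          @SimpleGraph.degree _ H a inst ≤ G.degree a.1 := by
        intro a inst
        rw [← SimpleGraph.card_neighborFinset_eq_degree, ← SimpleGraph.card_neighborFinset_eq_degree]
        refine Finset.card_le_card_of_injOn (fun b => b.1) ?_ ?_
        · intro b hb
          rw [Finset.mem_coe, SimpleGraph.mem_neighborFinset] at hb ⊢
          exact hb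
        · intro b _ c _ h
          exact Subtype.ext h
      have hH : oreDegree H ≤ 2 * k - 2 := by
        unfold oreDegree
        apply Finset.sup_le
        rintro ⟨a, b⟩ hab
        rw [mem_filter] at hab
        have h1 : G.Adj a.1 b.1 := hab.2
        have h2 := ore_adj hG h1
        exact (add_le_add (hdeg a _) (hdeg b _)).trans h2
      have hcard : Fintype.card {v // ¬ InCompleteComponent G k v} < n0 := by
        have h1 : Fintype.card {v // ¬ InCompleteComponent G k v}
            = (univ.filter fun v => ¬ InCompleteComponent G k v).card := Fintype.card_subtype _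
        omega
      obtain ⟨f1, hf1, hf1p, hf1c⟩ := h _ H hH hcard C (fun a => L a.1) (fun a => hL a.1)
      obtain ⟨f, hf, hfp, hfc⟩ := Pool.Agent.Helper28.EQ.extK k hk V G C L hL f1 hf1
        (fun a b hab => hf1p a b hab) (fun c => by
          have := hf1c c
          rw [ceil_eq _ _ hk] at this
          have e1 : @Fintype.card {v // ¬ Pool.Agent.Helper28.EQ.InK G k v} _
              = @Fintype.card {v // ¬ InCompleteComponent G k v} _ :=
            @Fintype.card_congr' {v // ¬ Pool.Agent.Helper28.EQ.InK G k v}
              {v // ¬ InCompleteComponent G k v} _ _ rfl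
          rw [e1]
          refine le_trans (le_of_eq ?_) this
          refine Finset.card_bij (fun a _ => a) ?_ ?_ ?_
          · intro a ha
            rw [mem_filter] at ha ⊢
            exact ⟨mem_univ _, ha.2⟩
          · intro a _ b _ hab
            exact hab
          · intro b hb
            rw [mem_filter] at hb
            exact ⟨b, by rw [mem_filter]; exact ⟨mem_univ _, hb.2⟩, rfl⟩)
      refine ⟨f, hf, hfp, fun c => ?_⟩
      rw [ceil_eq _ _ hk]
      convert hfc c

end Pool.Agent.Results.MP_c0e710_co.LargeGraphs
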